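import Pool.Agent.Lib_MP_1eadae_lq.Fin

/-!
# Logarithms of almost all tuples of integers

`algebraicClosure ℚ ℂ` is the field of algebraic numbers. The functions `l i` are completely additive
on the positive integers; their values at the primes are logarithms of algebraic numbers which are
linearly independent over the rational numbers. The function `a ↦ log a` is one of them
(`Pool.Agent.LogAll.log_mem_LogFun`).
-/

set_option autoImplicit false

namespace Pool.Agent.Results.MP_1eadae_ag.AlmostAllTuples

open Classical in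
theorem result (d D r : ℕ) : ∃ C : ℕ, ∀ l : Fin r → ℕ → ℂ,
    (∀ i, (∀ a b : ℕ, 0 < a → 0 < b → l i (a * b) = l i a + l i b) ∧
      LinearIndependent ℚ (fun p : Nat.Primes => l i (p : ℕ)) ∧
      ∀ p : ℕ, p.Prime → IsAlgebraic ℚ (Complex.exp (l i p))) →
    ∀ w : Fin d → ℂ, LinearIndependent (algebraicClosure ℚ ℂ) w →
    ∀ x : Fin r → ℕ, (∀ i, 16 ≤ x i) →
      ((((Fintype.piFinset fun i => Finset.Icc 1 (x i)).filter (fun a : Fin r → ℕ =>
        ¬ LinearIndependent (algebraicClosure ℚ ℂ) (fun be : Fin d × (Fin r → Fin (D + 1)) =>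
          w be.1 * ∏ i, l i (a i) ^ (be.2 i : ℕ)))).card : ℕ) : ℝ) ≤
        C * (∑ i, (Real.log (Real.log (x i))) ^ C / Real.log (x i)) * ∏ i, (x i : ℝ) :=
  Pool.Agent.LogAll.tuples_rate d D r

end Pool.Agent.Results.MP_1eadae_ag.AlmostAllTuples
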