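import Pool.Agent.Lib_MP_1eadae_ft.Fin2

/-!
# Universality of circuit integrals for formal periods: finitely many denominators suffice

Functions on cubes are complex valued functions of real sequences depending on finitely many
coordinates. `StokesSpan C` is the additive span of the Newton-Leibniz elements
`∂G/∂x_i - G|_{x_i=1} + G|_{x_i=0}` with `G, ∂G/∂x_i` in the class `C`, `NashFn Qbar` is the class of
algebraic (Nash) functions over the algebraic numbers, `piProd n m` is the product of the factors
`4/(1+x_j^2)`, `n ≤ j < n+m` (each of integral `π`).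

A circuit integrand (`circuit`) is, for a circuit with `n` inputs `t_j` and `m` nodes `y_k`,
`y_v/(4 - y_w) ∏ dy_k/(y_k - g_k)` on `[0,1]^n` times the product of `m` circles `|y_k| = 2`, where
every `g_k` is one of finitely many gates (a constant, `t_j/2`, or `c_0 + c_1 y_a + c_2 y_b + c_3 y_a y_b`
in two earlier nodes); `CircuitSpan` is the space of their `ℚ(i)`-linear combinations.
`TemplateFn T` is the ring of quotients of polynomials by products of functions
`L(x_{i_0}, ..., x_{i_3})`, `L ∈ T`.

The theorem: there is one finite set `T` of polynomials in four variables such that formal periods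
are generated (up to powers of `2πi`) by circuit integrands, all relations between circuit
integrands which follow from the Newton-Leibniz relations of Nash functions follow (after
multiplication by powers of `π`) from those of functions with denominators in `T`, and Kontsevich's
period conjecture is equivalent to its restriction to circuit integrands and these relations.
-/

set_option autoImplicit false

namespace Pool.Agent.Results.MP_1eadae_ag.CircuitPresentation

open MP1eadae MP1eadaeL

theorem result : ∃ T : Set (MvPolynomial (Fin 4) Qi), T.Finite ∧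
    (∀ L ∈ T, ∀ u : Fin 4 → ℝ, (∀ j, u j ∈ Set.Icc (0 : ℝ) 1) →
      MvPolynomial.aeval (fun j => ((u j : ℝ) : ℂ)) L ≠ 0) ∧
    CircuitSpan ⊆ TemplateFn T ∧
    (∀ (n : ℕ) (f : (ℕ → ℝ) → ℂ), f ∈ NashFn Qbar → DepLT n f →
      ∃ (m : ℕ) (g : (ℕ → ℝ) → ℂ), g ∈ CircuitSpan ∧ DepLT (n + m) g ∧
        (fun x => (2 * Complex.I) ^ m * piProd n m x * f x - g x) ∈ StokesSpan (NashFn Qbar)) ∧
    (∀ (N : ℕ) (F : (ℕ → ℝ) → ℂ), F ∈ CircuitSpan → DepLT N F → F ∈ StokesSpan (NashFn Qbar) →
      ∃ m : ℕ, (fun x => piProd N m x * F x) ∈ StokesSpan (TemplateFn T)) ∧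
    (PeriodConj (NashFn Qbar) ↔
      ∀ (N : ℕ) (F : (ℕ → ℝ) → ℂ), F ∈ CircuitSpan → DepLT N F → cubeInt N F = 0 →
        ∃ m : ℕ, (fun x => piProd N m x * F x) ∈ StokesSpan (TemplateFn T)) := by
  obtain ⟨T, h1, h2, h3, h4, h5⟩ := circuit_relations
  refine ⟨T, h1, h2, h3, circuit_generation, fun N F hF hd hS => ?_, fun hP => ?_, fun hQ => ?_⟩
  · refine h5 N 0 F hF hd ?_
    have h6 : (fun x : ℕ → ℝ => piProd N 0 x * F x) = F := by
      funext x
      simp [piProd]
    rw [h6]
    exact hS
  · exact circuit_conj_of_nash h5 hP
  · exact nash_conj_of_circuit h4 hQ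

end Pool.Agent.Results.MP_1eadae_ag.CircuitPresentation
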