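import Pool.Agent.Lib_MP_1eadae_lp.Fin2

/-!
# Relations between logarithms of algebraic numbers on grids

`algebraicClosure ℚ ℂ` is the field of algebraic numbers.
-/

set_option autoImplicit false

namespace Pool.Agent.Results.MP_1eadae_ag.GridsOfLogarithms

open Classical in
theorem result (d D r : ℕ) : ∃ n₀ : ℕ, ∃ δ : ℝ, 0 < δ ∧ ∀ n : ℕ, n₀ ≤ n →
    ∀ lam : Fin r → Fin n → ℂ, (∀ i, LinearIndependent ℚ (lam i)) →
    (∀ i j, IsAlgebraic ℚ (Complex.exp (lam i j))) →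
    ∀ w : Fin d → ℂ, LinearIndependent (algebraicClosure ℚ ℂ) w → ∀ (u : Fin r → ℂ)
    (X : Fin r → Fin n → Finset ℚ) (N : ℕ), 1 ≤ N → (∀ i j, N ≤ (X i j).card) →
    ((((Fintype.piFinset fun i => Fintype.piFinset (X i)).filter (fun x : Fin r → Fin n → ℚ =>
      ¬ LinearIndependent (algebraicClosure ℚ ℂ) (fun be : Fin d × (Fin r → Fin (D + 1)) =>
        w be.1 * ∏ i, (u i + ∑ j, (x i j : ℂ) * lam i j) ^ (be.2 i : ℕ)))).card : ℕ) : ℝ) ≤
      2 * r * (N : ℝ) ^ (-(δ * n)) * ∏ i, ∏ j, ((X i j).card : ℝ) :=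
  Pool.Agent.LogAll.grids_pow d D r

end Pool.Agent.Results.MP_1eadae_ag.GridsOfLogarithms
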