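import Pool.Agent.Lib_LogRel.DE

/-!
# Linear relations between products of linear forms in logarithms

A linear form in logarithms is a linear combination, with algebraic coefficients, of complex numbers with
algebraic exponential. Let `V_1, …, V_k` be nonzero finite dimensional spaces (over the field of algebraic
numbers) of linear forms in logarithms and let `W` be any finite dimensional space of complex numbers.
For all `e_i ≤ dim W` the space `W V_1 ⋯ V_k`, spanned by the products of an element of `W` and an element of
each `V_i`, has dimension at least `dim W + ∑ e_i (dim V_i - e_i)`.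

* If `V_i` is spanned by `n` logarithms which are linearly independent over `ℚ`, its dimension is `n`
  (Baker).
* `k = 1`, `e_1 = dim W = d ≤ dim V_1 = n`: the `d n` products `x_i Λ_j` satisfy at most `d (d - 1)`
  independent linear relations with algebraic coefficients (`x_1, …, x_d` any complex numbers, `Λ_1, …, Λ_n`
  linear forms in logarithms, both linearly independent over the algebraic numbers).
* `W = V`, all `V_i = V` of dimension `n`: `dim V^k ≥ n + (k - 1) ⌊n²/4⌋`; for `k = 2` and `V` spanned by `n`
  logarithms this is more than half of the `n (n + 1) / 2` predicted by the period conjecture.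
-/

set_option autoImplicit false

namespace Pool.Agent.Results.MP_1eadae_ag.ProductsOfLogarithms

theorem result (k : ℕ) (V : Fin k → Submodule (algebraicClosure ℚ ℂ) ℂ)
    (hV : ∀ i, FiniteDimensional (algebraicClosure ℚ ℂ) (V i)) (hV0 : ∀ i, V i ≠ ⊥)
    (hlog : ∀ i, V i ≤ Submodule.span (algebraicClosure ℚ ℂ) {l : ℂ | IsAlgebraic ℚ (Complex.exp l)})
    (W : Submodule (algebraicClosure ℚ ℂ) ℂ) (hW : FiniteDimensional (algebraicClosure ℚ ℂ) W)
    (e : Fin k → ℕ) (he : ∀ i, e i ≤ Module.finrank (algebraicClosure ℚ ℂ) W) :
    Module.finrank (algebraicClosure ℚ ℂ) W +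
        ∑ i, e i * (Module.finrank (algebraicClosure ℚ ℂ) (V i) - e i) ≤
      Module.finrank (algebraicClosure ℚ ℂ) ↥(W * ∏ i, V i) :=
  (Pool.Agent.LogRel.finrank_W_mul_prod W hW k V hV hV0 hlog e he).2

end Pool.Agent.Results.MP_1eadae_ag.ProductsOfLogarithms
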